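import Pool.Agent.H77.RZ.Stmts

/-!
# RZ board: module USE

The lattice of a unit class.
-/

set_option autoImplicit false

namespace Pool.RZ

open Polynomial Matrix Pool.AVR Pool.AVS

namespace USE

/-- A polynomial whose class has nonzero norm is coprime to the modulus. -/
theorem coprime_of_norm {K : Type} [Field K] (m s : K[X]) (hm : m.Monic)
    (hn : Algebra.norm K (AdjoinRoot.mk m s) ≠ 0) : IsCoprime s m := by
  have : Module.Finite K (AdjoinRoot m) := hm.finite_adjoinRoot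
  have : Module.Free K (AdjoinRoot m) := hm.free_adjoinRoot
  have h1 : IsUnit (Algebra.lmul K (AdjoinRoot m) (AdjoinRoot.mk m s)) := by
    rw [LinearMap.isUnit_iff_isUnit_det, ← Algebra.norm_apply]
    exact hn.isUnit
  obtain ⟨u, hu⟩ := h1
  have h2 : Algebra.lmul K (AdjoinRoot m) (AdjoinRoot.mk m s) ((u⁻¹ : (Module.End K _)ˣ).1 1) =
      1 := by
    rw [← hu]
    change (u.1 * (u⁻¹ : (Module.End K _)ˣ).1) 1 = 1
    rw [Units.mul_inv]
    rfl
  obtain ⟨w, hw⟩ := AdjoinRoot.mk_surjective ((u⁻¹ : (Module.End K (AdjoinRoot m))ˣ).1 1)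
  rw [← hw, Algebra.coe_lmul_eq_mul, LinearMap.mul_apply', ← map_mul] at h2
  have h3 : AdjoinRoot.mk m (s * w - 1) = 0 := by rw [map_sub, h2, map_one, sub_self]
  rw [AdjoinRoot.mk_eq_zero] at h3
  obtain ⟨z, hz⟩ := h3
  exact ⟨w, -z, by linear_combination hz⟩

theorem cubK_monic {F : Type} [Field F] (f : F[X] × F[X] × F[X]) : (cubK f).Monic := by
  unfold cubK cub
  monicity!

theorem cub_monic {K : Type} [Field K] (a b c : K) : (cub a b c).Monic := by
  unfold cub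
  monicity!

theorem mem_IP_div {F : Type} [Field F] {P a b : F[X]} (hb : ¬ P ∣ b) :
    rf a / rf b ∈ IP P := by
  intro h
  exact hb (h.trans (RatFunc.denom_div_dvd a b))

theorem mem_IP_rf {F : Type} [Field F] {P : F[X]} (hP : Irreducible P) (a : F[X]) :
    rf a ∈ IP P := by
  have h := mem_IP_div (P := P) (a := a) (b := 1) (fun h => hP.not_isUnit (isUnit_of_dvd_one h))
  simpa using h

theorem core (hLM : LMStmt) (hNUN : NUNStmt) {F : Type} [Field F] (P : F[X])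
    (f : F[X] × F[X] × F[X]) (h s : (RatFunc F)[X]) (p : F[X][X]) (hP : Irreducible P)
    (hs : cubK f ∣ h * s ^ 2 - lf p) (hp : UnP P f p) :
    ∃ g : Matrix (Fin 3) (Fin 3) (RatFunc F), g.det ≠ 0 ∧ gᵀ * g0 f h * g = g0 f (lf p) ∧
      gᵀ * g1 f h * g = g1 f (lf p) ∧ GI (IP P) (g0 f (lf p)) ∧ MI (IP P) (g1 f (lf p)) := by
  obtain ⟨hint, ν, hν, hdet, hun⟩ := hNUN F f p
  have hPν : ¬ P ∣ ν := (hun P hP).1 hp
  have hν0 : ν ≠ 0 := fun h0 => hPν (h0 ▸ dvd_zero P)
  have hν1 : rf ν ≠ 0 := by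
    simpa using hν0
  -- `s` is coprime to the cubic
  have hmk : AdjoinRoot.mk (cubK f) h * AdjoinRoot.mk (cubK f) s ^ 2 =
      AdjoinRoot.mk (cubK f) (lf p) := by
    have := AdjoinRoot.mk_eq_zero.2 hs
    rw [map_sub, map_mul, map_pow, sub_eq_zero] at this
    exact this
  have hns : Algebra.norm (RatFunc F) (AdjoinRoot.mk (cubK f) s) ≠ 0 := by
    intro h0
    have h1 := congrArg (Algebra.norm (RatFunc F)) hmk
    rw [map_mul, map_pow, h0, hν] at h1
    apply hν1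
    rw [← h1]
    ring
  have hco := coprime_of_norm _ _ (cubK_monic f) hns
  obtain ⟨g, hg, hg0, hg1⟩ := hLM (RatFunc F) (kf f).1 (kf f).2.1 (kf f).2.2 h (lf p) s hco hs
  refine ⟨g, hg, hg0, hg1, ⟨?_, ?_, ?_, ?_⟩, ?_⟩
  · intro i j
    obtain ⟨x, y, hx, hy⟩ := hint i j
    rw [hx]
    exact mem_IP_rf hP x
  · rw [hdet]
    exact neg_ne_zero.2 hν1
  · rw [hdet, ← map_neg]
    exact mem_IP_rf hP _
  · rw [hdet, inv_neg]
    have := mem_IP_div (F := F) (a := -1) hPν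
    have h5 : rf (-1 : F[X]) / rf ν = -(rf ν)⁻¹ := by
      simp only [rf]
      rw [map_neg, map_one, neg_div, one_div]
    rw [h5] at this
    exact this
  · intro i j
    obtain ⟨x, y, hx, hy⟩ := hint i j
    rw [hy]
    exact mem_IP_rf hP y

end USE

/-- USE. -/
theorem use_thm (hLM : LMStmt) (hNUN : NUNStmt) : USEStmt := by
  intro F _ P f h hP hU
  obtain ⟨s, p, hs, hp⟩ := hU
  obtain ⟨g, hg, hg0, hg1, hG, hM⟩ := USE.core hLM hNUN P f h s p hP hs hp
  exact ⟨g, hg, hg0.symm ▸ hG, hg1.symm ▸ hM⟩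

end Pool.RZ
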