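import Pool.Agent.H69.RZ.USE

/-!
# RZ board: module TRE

The lattice of a trivial class.
-/

set_option autoImplicit false

namespace Pool.RZ

open Polynomial Matrix Pool.AVR Pool.AVS

namespace TRE

theorem tau_add {K : Type} [Field K] (a b c : K) (p q : K[X]) :
    tau a b c (p + q) = tau a b c p + tau a b c q := by
  unfold tau
  rw [add_modByMonic, coeff_add]

theorem tau_C_mul {K : Type} [Field K] (a b c r : K) (p : K[X]) :
    tau a b c (C r * p) = r * tau a b c p := by
  unfold tau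
  rw [← smul_eq_C_mul, smul_modByMonic, coeff_smul, smul_eq_mul]

theorem tau_small {K : Type} [Field K] (a b c : K) (p : K[X]) (hp : p.natDegree < 2) :
    tau a b c p = 0 := by
  have hd : (cub a b c).natDegree = 3 := by
    unfold cub
    compute_degree!
  unfold tau
  rw [(modByMonic_eq_self_iff (USE.cub_monic a b c)).2, coeff_eq_zero_of_natDegree_lt hp]
  refine degree_lt_degree ?_
  omega

end TRE

/-- TRE. -/
theorem tre_thm (hLM : LMStmt) (hNUN : NUNStmt) (hUPM : UPMStmt) : TREStmt := by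
  intro F _ P f h hP hT
  obtain ⟨s, p, hs⟩ := hT
  have hp : UnP P f (1 + C P * p) := (hUPM F P f).2.1 p
  obtain ⟨g, hg, hg0, hg1, hG, hM⟩ := USE.core hLM hNUN P f h s _ hP hs hp
  obtain ⟨hint, -⟩ := hNUN F f p
  obtain ⟨x, y, hx, hy⟩ := hint 0 0
  have hrP : rf P ≠ 0 := by
    simpa using hP.ne_zero
  have hlf : lf (1 + C P * p) = 1 + C (rf P) * lf p := by
    simp [lf, Polynomial.map_add, Polynomial.map_mul]
  have e0 : g0 f (lf (1 + C P * p)) 0 0 = rf P * rf x := by
    rw [← hx]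
    simp only [g0, gr0, Matrix.of_apply, Fin.val_zero, pow_zero, one_mul]
    rw [hlf, TRE.tau_add, TRE.tau_C_mul, TRE.tau_small _ _ _ 1 (by simp), zero_add]
  have e1 : g1 f (lf (1 + C P * p)) 0 0 = rf P * rf y := by
    rw [← hy]
    simp only [g1, gr1, Matrix.of_apply, Fin.val_zero, pow_zero, one_mul]
    have : (X : (RatFunc F)[X]) * lf (1 + C P * p) = X + C (rf P) * (X * lf p) := by
      rw [hlf]; ring
    rw [this, TRE.tau_add, TRE.tau_C_mul, TRE.tau_small _ _ _ X (by simp), zero_add]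
  refine ⟨g, hg, hg0.symm ▸ hG, hg1.symm ▸ hM, ?_, ?_⟩
  · rw [hg0, e0, mul_div_cancel_left₀ _ hrP]
    exact USE.mem_IP_rf hP x
  · rw [hg1, e1, mul_div_cancel_left₀ _ hrP]
    exact USE.mem_IP_rf hP y

end Pool.RZ
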